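import Pool.Agent.KD4.Imp

/-!
# KD4 / Cnt: lower bounds for the number of closed sets in dimension at most four
-/

set_option autoImplicit false

namespace Pool.Agent.KD4

open Module

variable {d : ℕ}

theorem A_nonempty {V A : Finset (E d)} (h : DP V A) : A.Nonempty := by
  have h0 := h.hullA 0 (fun v _ => by rw [inner_zero_right]; exact zero_le_one)
  by_contra hne
  rw [Finset.not_nonempty_iff_eq_empty] at hne
  rw [hne] at h0
  simp at h0

theorem zero_notMem (hd : 1 ≤ d) {V A : Finset (E d)} (h : DP V A) : (0 : E d) ∉ V := by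
  intro h0
  have h1 := span_act h.swap h0
  have h2 : act A {(0 : E d)} = ∅ := by
    rw [Finset.eq_empty_iff_forall_notMem]
    intro a ha
    have := (mem_act.1 ha).2 0 (Finset.mem_singleton_self _)
    rw [inner_zero_right] at this
    exact zero_ne_one this
  rw [h2, Finset.coe_empty, Submodule.span_empty] at h1
  have h3 : finrank ℝ (⊥ : Submodule ℝ (E d)) = finrank ℝ (⊤ : Submodule ℝ (E d)) := by rw [h1]
  rw [finrank_bot, finrank_top, finrank_euclideanSpace_fin] at h3
  omega

theorem single_face (hd : 1 ≤ d) {V A : Finset (E d)} (h : DP V A) {v : E d} (hv : v ∈ V) :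
    IsFace V A 0 {v} := by
  refine ⟨Finset.singleton_subset_iff.2 hv, Finset.singleton_nonempty v, ?_,
    single_closed h hv, ?_⟩
  · rw [Finset.nonempty_iff_ne_empty]
    intro h0
    have h1 := span_act h.swap hv
    rw [h0, Finset.coe_empty, Submodule.span_empty] at h1
    have h3 : finrank ℝ (⊥ : Submodule ℝ (E d)) = finrank ℝ (⊤ : Submodule ℝ (E d)) := by rw [h1]
    rw [finrank_bot, finrank_top, finrank_euclideanSpace_fin] at h3
    omega
  · rw [Finset.coe_singleton, finrank_span_singleton]
    intro h0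
    exact zero_notMem hd h (h0 ▸ hv)

theorem card_Fc_zero (hd : 1 ≤ d) {V A : Finset (E d)} (h : DP V A) :
    V.card ≤ (Fc V A 0).card := by
  classical
  have h1 : V.image (fun v => ({v} : Finset (E d))) ⊆ Fc V A 0 := by
    intro X hX
    obtain ⟨v, hv, rfl⟩ := Finset.mem_image.1 hX
    exact mem_Fc.2 (single_face hd h hv)
  rw [← Finset.card_image_of_injective V (f := fun v => ({v} : Finset (E d)))
    Finset.singleton_injective]
  exact Finset.card_le_card h1

theorem card_Fc_dual {V A : Finset (E d)} (h : DP V A) (k : ℕ) :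
    (Fc A V k).card ≤ (Fc V A (d - 1 - k)).card := by
  classical
  refine Finset.card_le_card_of_injOn (fun Y => act V Y) ?_ ?_
  · intro Y hY
    exact Finset.mem_coe.2 (mem_Fc.2 (IsFace.dual h.swap (mem_Fc.1 (Finset.mem_coe.1 hY))).2)
  · intro Y hY Y' hY' he
    have h1 := (mem_Fc.1 (Finset.mem_coe.1 hY)).2.2.2.1
    have h2 := (mem_Fc.1 (Finset.mem_coe.1 hY')).2.2.2.1
    have he' : act V Y = act V Y' := he
    rw [← h1, ← h2, he']

open scoped Classical in
/-- all proper faces -/
noncomputable def Call (V A : Finset (E d)) : Finset (Finset (E d)) :=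
  (Finset.range d).biUnion (Fc V A)

theorem card_Call (V A : Finset (E d)) :
    (Call V A).card = ∑ k ∈ Finset.range d, (Fc V A k).card := by
  classical
  rw [Call, Finset.card_biUnion]
  intro i _ j _ hij
  change Disjoint (Fc V A i) (Fc V A j)
  rw [Finset.disjoint_left]
  intro X hX hX'
  have h1 := (mem_Fc.1 hX).2.2.2.2
  have h2 := (mem_Fc.1 hX').2.2.2.2
  omega

theorem Call_closed {V A : Finset (E d)} : ∀ X ∈ Call V A, X ⊆ V ∧ X.Nonempty ∧
    (act A X).Nonempty ∧ act V (act A X) = X := by
  classical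
  intro X hX
  rw [Call, Finset.mem_biUnion] at hX
  obtain ⟨k, _, hk⟩ := hX
  obtain ⟨h1, h2, h3, h4, _⟩ := mem_Fc.1 hk
  exact ⟨h1, h2, h3, h4⟩

/-- halves of symmetric sets -/
theorem half_sys {W : Type*} [AddCommGroup W] [Module ℝ W] (V : Finset W)
    (hneg : ∀ x ∈ V, -x ∈ V) (h0 : (0 : W) ∉ V) :
    ∃ T : Finset W, 2 * T.card = V.card ∧ ∀ x, x ∈ V ↔ (x ∈ T ∨ -x ∈ T) := by
  classical
  set T : Finset W := V.filter (fun x => WellOrderingRel x (-x)) with hT
  have hne : ∀ x ∈ V, x ≠ -x := by
    intro x hx h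
    have h2 : (2 : ℝ) • x = 0 := by
      rw [two_smul]
      calc x + x = x + -x := by rw [← h]
        _ = 0 := add_neg_cancel x
    have : x = 0 := (smul_eq_zero.1 h2).resolve_left two_ne_zero
    rw [this] at hx
    exact h0 hx
  have hmem : ∀ x, x ∈ V ↔ (x ∈ T ∨ -x ∈ T) := by
    intro x
    constructor
    · intro hx
      rcases trichotomous_of (WellOrderingRel (α := W)) x (-x) with h | h | h
      · exact Or.inl (Finset.mem_filter.2 ⟨hx, h⟩)
      · exact absurd h (hne x hx)
      · exact Or.inr (Finset.mem_filter.2 ⟨hneg x hx, by rw [neg_neg]; exact h⟩)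
    · rintro (h | h)
      · exact (Finset.mem_filter.1 h).1
      · have := hneg _ (Finset.mem_filter.1 h).1
        rwa [neg_neg] at this
  refine ⟨T, ?_, hmem⟩
  have hU : V = T ∪ T.image (fun x => -x) := by
    ext x
    rw [hmem x, Finset.mem_union, Finset.mem_image]
    constructor
    · rintro (h | h)
      · exact Or.inl h
      · exact Or.inr ⟨-x, h, neg_neg x⟩
    · rintro (h | ⟨y, hy, rfl⟩)
      · exact Or.inl h
      · exact Or.inr (by rw [neg_neg]; exact hy)
  have hdisj : Disjoint T (T.image (fun x => -x)) := by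
    rw [Finset.disjoint_left]
    intro x hx hx'
    rw [Finset.mem_image] at hx'
    obtain ⟨y, hy, rfl⟩ := hx'
    have h1 := (Finset.mem_filter.1 hx).2
    have h2 := (Finset.mem_filter.1 hy).2
    rw [neg_neg] at h1
    exact asymm_of (WellOrderingRel (α := W)) h1 h2
  calc 2 * T.card = T.card + (T.image (fun x => -x)).card := by
        rw [Finset.card_image_of_injective _ neg_injective]; ring
    _ = (T ∪ T.image (fun x => -x)).card := (Finset.card_union_of_disjoint hdisj).symm
    _ = V.card := by rw [← hU]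

/-- few faces force few vertices or few facets, in dimension at most four -/
theorem few_of_count (hd : 1 ≤ d) (h4 : d ≤ 4) {V A : Finset (E d)} (h : DP V A)
    (hc : (Call V A).card + 1 ≤ 3 ^ d) : V.card ≤ 2 * d + 4 ∨ A.card ≤ 2 * d + 4 := by
  obtain ⟨T, hT, -⟩ := half_sys V h.negV (zero_notMem hd h)
  obtain ⟨T', hT', -⟩ := half_sys A h.negA (zero_notMem hd h.swap)
  rw [card_Call] at hc
  by_contra hcon
  push Not at hcon
  obtain ⟨hV, hA⟩ := hcon
  have h0 := card_Fc_zero hd h
  have h0' := card_Fc_zero hd h.swap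
  have hd0 := card_Fc_dual h 0
  have hd1 := card_Fc_dual h 1
  obtain rfl | rfl | rfl | rfl : d = 1 ∨ d = 2 ∨ d = 3 ∨ d = 4 := by omega
  · simp only [Finset.sum_range_succ, Finset.sum_range_zero] at hc
    norm_num at hc
    omega
  · have he := edges_ge le_rfl h
    simp only [Finset.sum_range_succ, Finset.sum_range_zero] at hc
    norm_num at hc
    omega
  · have he := edges_ge (by norm_num) h
    simp only [Finset.sum_range_succ, Finset.sum_range_zero] at hc
    norm_num at hc
    omega
  · have he := edges_ge (by norm_num) h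
    have he' := edges_ge (by norm_num) h.swap
    simp only [Finset.sum_range_succ, Finset.sum_range_zero] at hc
    norm_num at hc hd0 hd1
    omega

end Pool.Agent.KD4
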