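import Mathlib

/-!
# KD4: dual pairs

`DP V A` : `V` is the set of vertices and `A` the set of facet normals of a centrally symmetric
polytope with the origin as centre, in dimension `d`.
-/

set_option autoImplicit false

namespace Pool.Agent.KD4

abbrev E (d : ℕ) := EuclideanSpace ℝ (Fin d)

structure DP {d : ℕ} (V A : Finset (E d)) : Prop where
  negV : ∀ v ∈ V, -v ∈ V
  negA : ∀ a ∈ A, -a ∈ A
  le : ∀ v ∈ V, ∀ a ∈ A, inner ℝ a v ≤ (1 : ℝ)
  hullV : ∀ x : E d, (∀ a ∈ A, inner ℝ a x ≤ (1 : ℝ)) → x ∈ convexHull ℝ (V : Set (E d))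
  hullA : ∀ y : E d, (∀ v ∈ V, inner ℝ v y ≤ (1 : ℝ)) → y ∈ convexHull ℝ (A : Set (E d))
  extV : ∀ v ∈ V, v ∉ convexHull ℝ ((V : Set (E d)) \ {v})
  extA : ∀ a ∈ A, a ∉ convexHull ℝ ((A : Set (E d)) \ {a})

theorem DP.swap {d : ℕ} {V A : Finset (E d)} (h : DP V A) : DP A V where
  negV := h.negA
  negA := h.negV
  le := fun v hv a ha => by rw [real_inner_comm]; exact h.le a ha v hv
  hullV := h.hullA
  hullA := h.hullV
  extV := h.extA
  extA := h.extV

open scoped Classical in
/-- the members of `A` which are equal to 1 on all of `X` -/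
noncomputable def act {d : ℕ} (A X : Finset (E d)) : Finset (E d) :=
  A.filter (fun a => ∀ v ∈ X, inner ℝ a v = (1 : ℝ))

variable {d : ℕ}

theorem mem_act {A X : Finset (E d)} {a : E d} :
    a ∈ act A X ↔ a ∈ A ∧ ∀ v ∈ X, inner ℝ a v = (1 : ℝ) := by
  classical
  simp [act]

theorem act_anti {A X X' : Finset (E d)} (h : X ⊆ X') : act A X' ⊆ act A X := by
  intro a ha
  rw [mem_act] at ha ⊢
  exact ⟨ha.1, fun v hv => ha.2 v (h hv)⟩

theorem act_subset (A X : Finset (E d)) : act A X ⊆ A := fun _ ha => (mem_act.1 ha).1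

theorem subset_act_act {V A X : Finset (E d)} (hX : X ⊆ V) : X ⊆ act V (act A X) := by
  intro v hv
  rw [mem_act]
  refine ⟨hX hv, fun a ha => ?_⟩
  rw [real_inner_comm]
  exact (mem_act.1 ha).2 v hv

theorem act_act_act {V A X : Finset (E d)} (hX : X ⊆ V) :
    act A (act V (act A X)) = act A X := by
  refine Finset.Subset.antisymm (act_anti (subset_act_act hX)) ?_
  exact subset_act_act (act_subset A X)

/-- `X` is the vertex set of a face of dimension `k` (proper, nonempty). -/
def IsFace (V A : Finset (E d)) (k : ℕ) (X : Finset (E d)) : Prop :=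
  X ⊆ V ∧ X.Nonempty ∧ (act A X).Nonempty ∧ act V (act A X) = X ∧
    Module.finrank ℝ (Submodule.span ℝ (X : Set (E d))) = k + 1

open scoped Classical in
/-- the faces of dimension `k` -/
noncomputable def Fc (V A : Finset (E d)) (k : ℕ) : Finset (Finset (E d)) :=
  V.powerset.filter (fun X => IsFace V A k X)

theorem mem_Fc {V A : Finset (E d)} {k : ℕ} {X : Finset (E d)} :
    X ∈ Fc V A k ↔ IsFace V A k X := by
  classical
  simp only [Fc, Finset.mem_filter, Finset.mem_powerset]
  exact ⟨fun h => h.2, fun h => ⟨h.1, h⟩⟩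

end Pool.Agent.KD4
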