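import Pool.Agent.KD4.Rank

/-!
# KD4 / Imp: improving edges, every vertex lies on at least `d` edges
-/

set_option autoImplicit false

namespace Pool.Agent.KD4

open Module

variable {d : ℕ}

/-- orthogonality to a spanning set -/
theorem inner_span {T : Set (E d)} {z : E d} (h : ∀ v ∈ T, inner ℝ v z = (0 : ℝ)) {x : E d}
    (hx : x ∈ Submodule.span ℝ T) : inner ℝ x z = (0 : ℝ) := by
  induction hx using Submodule.span_induction with
  | mem v hv => exact h v hv
  | zero => simp
  | add x y _ _ hx hy => rw [inner_add_left, hx, hy, add_zero]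
  | smul c x _ hx => rw [real_inner_smul_left, hx, mul_zero]

/-- the face of a point -/
theorem face_of_point {V A Y : Finset (E d)} (h : DP V A) {p : E d}
    (hp : ∀ a ∈ A, inner ℝ a p ≤ (1 : ℝ))
    (hY : ∀ a, a ∈ Y ↔ a ∈ A ∧ inner ℝ a p = (1 : ℝ)) :
    p ∈ convexHull ℝ ((act V Y : Finset (E d)) : Set (E d)) ∧ act A (act V Y) = Y := by
  have h1 := mem_conv_act h (Y := Y) (fun a ha => ((hY a).1 ha).1) (h.hullV p hp)
    (fun a ha => ((hY a).1 ha).2)
  refine ⟨h1, Finset.Subset.antisymm (fun a ha => ?_) (subset_act_act fun a ha => ((hY a).1 ha).1)⟩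
  rw [mem_act] at ha
  exact (hY a).2 ⟨ha.1, inner_eq_hull (fun x hx => ha.2 x (Finset.mem_coe.1 hx)) h1⟩

/-- a vertex is closed -/
theorem single_closed {V A : Finset (E d)} (h : DP V A) {v : E d} (hv : v ∈ V) :
    act V (act A {v}) = {v} := by
  refine Finset.Subset.antisymm (fun u hu => ?_)
    (subset_act_act (Finset.singleton_subset_iff.2 hv))
  rw [mem_act] at hu
  rw [Finset.mem_singleton]
  have h1 : ∀ a ∈ ((act A {v} : Finset (E d)) : Set (E d)), inner ℝ a (u - v) = (0 : ℝ) := by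
    intro a ha
    have ha' := Finset.mem_coe.1 ha
    rw [inner_sub_right, real_inner_comm, hu.2 a ha',
      (mem_act.1 ha').2 v (Finset.mem_singleton_self v), sub_self]
  have h2 := inner_span h1 (x := u - v) (by rw [span_act h.swap hv]; trivial)
  exact sub_eq_zero.1 (inner_self_eq_zero.1 h2)

theorem step_lemma {Yv Yf : Finset (E d)}
    (hsp : Submodule.span ℝ (Yv : Set (E d)) = ⊤) (hsub : Yf ⊆ Yv) (c z0 : E d)
    (h0 : ∀ a ∈ Yf, inner ℝ a z0 = (0 : ℝ)) (h1 : ∀ a ∈ Yv, inner ℝ a z0 ≤ (0 : ℝ))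
    (hc : (0 : ℝ) < inner ℝ c z0)
    (hD : finrank ℝ (Submodule.span ℝ (Yf : Set (E d))) + 2 ≤ d) :
    ∃ z : E d, (∀ a ∈ Yf, inner ℝ a z = (0 : ℝ)) ∧ (∀ a ∈ Yv, inner ℝ a z ≤ (0 : ℝ)) ∧
      (0 : ℝ) < inner ℝ c z ∧ ∃ a ∈ Yv, a ∉ Yf ∧ inner ℝ a z = (0 : ℝ) := by
  classical
  by_cases hex : ∃ a ∈ Yv, a ∉ Yf ∧ inner ℝ a z0 = (0 : ℝ)
  · exact ⟨z0, h0, h1, hc, hex⟩
  push Not at hex
  have hlt : ∀ a ∈ Yv, a ∉ Yf → inner ℝ a z0 < (0 : ℝ) := fun a ha ha' =>
    lt_of_le_of_ne (h1 a ha) (hex a ha ha')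
  -- a direction orthogonal to Yf and c
  set K := Submodule.span ℝ (Yf : Set (E d)) ⊔ Submodule.span ℝ {c} with hK
  have h2 : finrank ℝ K < d := by
    have e1 := Submodule.finrank_add_le_finrank_add_finrank
      (Submodule.span ℝ (Yf : Set (E d))) (Submodule.span ℝ {c})
    have e2 : finrank ℝ (Submodule.span ℝ {c}) ≤ 1 := by
      refine (finrank_span_le_card ({c} : Set (E d))).trans ?_
      simp
    rw [← hK] at e1
    omega
  have h3 : Kᗮ ≠ ⊥ := by
    intro h4
    have h5 := Submodule.finrank_add_finrank_orthogonal K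
    rw [h4, finrank_bot, finrank_euclideanSpace_fin] at h5
    omega
  obtain ⟨z2, hz2, hz20⟩ := Submodule.exists_mem_ne_zero_of_ne_bot h3
  rw [Submodule.mem_orthogonal] at hz2
  have hz2f : ∀ a ∈ Yf, inner ℝ a z2 = (0 : ℝ) := fun a ha =>
    hz2 a (Submodule.mem_sup_left (Submodule.subset_span (Finset.mem_coe.2 ha)))
  have hz2c : inner ℝ c z2 = (0 : ℝ) :=
    hz2 c (Submodule.mem_sup_right (Submodule.mem_span_singleton_self c))
  have hex2 : ∃ a ∈ Yv, inner ℝ a z2 ≠ (0 : ℝ) := by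
    by_contra hcon
    push Not at hcon
    have h6 := inner_span (T := (Yv : Set (E d))) (z := z2)
      (fun a ha => hcon a (Finset.mem_coe.1 ha)) (x := z2) (by rw [hsp]; trivial)
    exact hz20 (inner_self_eq_zero.1 h6)
  have key : ∀ y : E d, (∀ a ∈ Yf, inner ℝ a y = (0 : ℝ)) → inner ℝ c y = (0 : ℝ) →
      (∃ a ∈ Yv, (0 : ℝ) < inner ℝ a y) →
      ∃ z : E d, (∀ a ∈ Yf, inner ℝ a z = (0 : ℝ)) ∧ (∀ a ∈ Yv, inner ℝ a z ≤ (0 : ℝ)) ∧
      (0 : ℝ) < inner ℝ c z ∧ ∃ a ∈ Yv, a ∉ Yf ∧ inner ℝ a z = (0 : ℝ) := by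
    intro y hyf hyc hy
    obtain ⟨a0, ha0, ha0'⟩ := hy
    have hne : (Yv.filter (fun a => (0 : ℝ) < inner ℝ a y)).Nonempty :=
      ⟨a0, Finset.mem_filter.2 ⟨ha0, ha0'⟩⟩
    obtain ⟨b, hb, hbmin⟩ := Finset.exists_min_image _
      (fun a : E d => -(inner ℝ a z0 : ℝ) / inner ℝ a y) hne
    rw [Finset.mem_filter] at hb
    have hbf : b ∉ Yf := fun hbf => by
      have := hyf b hbf
      rw [this] at hb
      exact lt_irrefl _ hb.2
    have hb0 := hlt b hb.1 hbf
    set s := -(inner ℝ b z0 : ℝ) / inner ℝ b y with hs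
    have hspos : 0 < s := div_pos (by linarith) hb.2
    refine ⟨z0 + s • y, fun a ha => ?_, fun a ha => ?_, ?_, b, hb.1, hbf, ?_⟩
    · rw [inner_add_right, inner_smul_right, h0 a ha, hyf a ha]
      ring
    · rw [inner_add_right, inner_smul_right]
      by_cases hp : (0 : ℝ) < inner ℝ a y
      · have h7 := hbmin a (Finset.mem_filter.2 ⟨ha, hp⟩)
        have h8 : s * inner ℝ a y ≤ -(inner ℝ a z0 : ℝ) := by
          rw [← le_div_iff₀ hp]
          exact h7
        linarith
      · push Not at hp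
        have h9 := h1 a ha
        nlinarith
    · rw [inner_add_right, inner_smul_right, hyc]
      linarith
    · have hb2 : (inner ℝ b y : ℝ) ≠ 0 := hb.2.ne'
      rw [inner_add_right, inner_smul_right, hs, div_mul_cancel₀ _ hb2]
      ring
  obtain ⟨a, ha, ha'⟩ := hex2
  rcases lt_or_gt_of_ne ha' with h8 | h8
  · refine key (-z2) (fun a ha => by rw [inner_neg_right, hz2f a ha, neg_zero])
      (by rw [inner_neg_right, hz2c, neg_zero]) ⟨a, ha, ?_⟩
    rw [inner_neg_right]
    linarith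
  · exact key z2 hz2f hz2c ⟨a, ha, h8⟩

/-- improving edges -/
theorem improving (hd : 2 ≤ d) {V A : Finset (E d)} (h : DP V A) {v c : E d} (hv : v ∈ V)
    (hex : ∃ w ∈ V, (inner ℝ c v : ℝ) < inner ℝ c w) :
    ∃ X, IsFace V A 1 X ∧ v ∈ X ∧ ∃ u ∈ X, (inner ℝ c v : ℝ) < inner ℝ c u := by
  classical
  set Yv := act A {v} with hYv
  have hsp := span_act h.swap hv
  have hvv : ∀ a ∈ Yv, inner ℝ a v = (1 : ℝ) := fun a ha =>
    (mem_act.1 ha).2 v (Finset.mem_singleton_self v)
  -- candidate zero sets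
  set C := Yv.powerset.filter (fun Y => ∃ z : E d, (∀ a ∈ Yv, inner ℝ a z ≤ (0 : ℝ)) ∧
    (0 : ℝ) < inner ℝ c z ∧ Y = Yv.filter (fun a => inner ℝ a z = (0 : ℝ))) with hC
  have hCne : C.Nonempty := by
    obtain ⟨w, hw, hcw⟩ := hex
    refine ⟨Yv.filter (fun a => inner ℝ a (w - v) = (0 : ℝ)), ?_⟩
    rw [hC, Finset.mem_filter, Finset.mem_powerset]
    refine ⟨Finset.filter_subset _ _, w - v, fun a ha => ?_, ?_, rfl⟩
    · rw [inner_sub_right, hvv a ha]
      have := h.le w hw a (act_subset _ _ ha)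
      linarith
    · rw [inner_sub_right]
      linarith
  obtain ⟨Y, hY, hmax⟩ := Finset.exists_max_image C Finset.card hCne
  rw [hC, Finset.mem_filter, Finset.mem_powerset] at hY
  obtain ⟨hYs, z, hz1, hz2, hYz⟩ := hY
  have hmem : ∀ a, a ∈ Y ↔ a ∈ Yv ∧ inner ℝ a z = (0 : ℝ) := fun a => by
    rw [hYz, Finset.mem_filter]
  have hrank : d ≤ finrank ℝ (Submodule.span ℝ (Y : Set (E d))) + 1 := by
    by_contra hcon
    push Not at hcon
    obtain ⟨z', g1, g2, g3, a, g4, g5, g6⟩ := step_lemma hsp hYs c z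
      (fun a ha => ((hmem a).1 ha).2) hz1 hz2 (by omega)
    have h1 : Yv.filter (fun a => inner ℝ a z' = (0 : ℝ)) ∈ C := by
      rw [hC, Finset.mem_filter, Finset.mem_powerset]
      exact ⟨Finset.filter_subset _ _, z', g2, g3, rfl⟩
    have h2 := hmax _ h1
    have h3 : Y ⊂ Yv.filter (fun a => inner ℝ a z' = (0 : ℝ)) := by
      refine ⟨fun b hb => Finset.mem_filter.2 ⟨hYs hb, g1 b hb⟩, fun hcon2 => g5 (hcon2 ?_)⟩
      exact Finset.mem_filter.2 ⟨g4, g6⟩
    exact absurd (Finset.card_lt_card h3) (by omega)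
  obtain ⟨ε, hε, hstep⟩ := exists_step A v z (fun a ha => h.le v hv a ha)
    (fun a ha ha' => hz1 a (mem_act.2 ⟨ha, fun w hw => by
      rw [Finset.mem_singleton.1 hw]; exact ha'⟩))
  have hYA : ∀ a, a ∈ Y ↔ a ∈ A ∧ inner ℝ a (v + ε • z) = (1 : ℝ) := by
    intro a
    rw [hmem]
    constructor
    · rintro ⟨h1, h2⟩
      exact ⟨act_subset _ _ h1, ((hstep a (act_subset _ _ h1)).2).2 ⟨hvv a h1, h2⟩⟩
    · rintro ⟨h1, h2⟩
      obtain ⟨h3, h4⟩ := ((hstep a h1).2).1 h2
      exact ⟨mem_act.2 ⟨h1, fun w hw => by rw [Finset.mem_singleton.1 hw]; exact h3⟩, h4⟩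
  obtain ⟨hp, hcl⟩ := face_of_point h (fun a ha => (hstep a ha).1) hYA
  have hYne : Y.Nonempty := by
    rw [Finset.nonempty_iff_ne_empty]
    intro h0
    rw [h0, Finset.coe_empty, Submodule.span_empty, finrank_bot] at hrank
    omega
  have hvX : v ∈ act V Y := mem_act.2 ⟨hv, fun a ha => by
    rw [real_inner_comm]
    exact hvv a (hYs ha)⟩
  have hu : ∃ u ∈ act V Y, (inner ℝ c v : ℝ) < inner ℝ c u := by
    by_contra hcon
    push Not at hcon
    have h1 := inner_le_hull (a := c) (c := inner ℝ c v)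
      (fun x hx => hcon x (Finset.mem_coe.1 hx)) hp
    rw [inner_add_right, inner_smul_right] at h1
    have := mul_pos hε hz2
    linarith
  refine ⟨act V Y, ⟨act_subset _ _, ⟨v, hvX⟩, by rw [hcl]; exact hYne, by rw [hcl], ?_⟩, hvX, hu⟩
  have h1 := rank_formula h (act_subset V Y) ⟨v, hvX⟩ (by rw [hcl]; exact hYne) (by rw [hcl])
  rw [hcl] at h1
  obtain ⟨u, hu1, hu2⟩ := hu
  have hss : ({v} : Finset (E d)) ⊂ act V Y := by
    refine ⟨Finset.singleton_subset_iff.2 hvX, fun hcon => ?_⟩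
    have := Finset.mem_singleton.1 (hcon hu1)
    rw [this] at hu2
    exact lt_irrefl _ hu2
  have h2 := rank_lt (A := A) (act_subset V Y) (by rw [hcl]; exact hYne) (single_closed h hv) hss
  have hv0 : v ≠ 0 := by
    intro h0
    obtain ⟨a, ha⟩ := hYne
    have := hvv a (hYs ha)
    rw [h0, inner_zero_right] at this
    exact zero_ne_one this
  rw [Finset.coe_singleton, finrank_span_singleton hv0] at h2
  omega

/-- no vertex is a convex combination of two others -/
theorem not_seg {V A : Finset (E d)} (h : DP V A) {x y z : E d} (hx : x ∈ V) (hy : y ∈ V)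
    (hz : z ∈ V) (hxy : x ≠ y) (hxz : x ≠ z) {s t : ℝ} (hs : 0 ≤ s) (ht : 0 ≤ t)
    (hst : s + t = 1) (he : x = s • y + t • z) : False := by
  refine h.extV x hx ?_
  have h1 := (convex_convexHull ℝ ((V : Set (E d)) \ {x}))
    (subset_convexHull ℝ _ (show y ∈ (V : Set (E d)) \ {x} from ⟨Finset.mem_coe.2 hy, hxy.symm⟩))
    (subset_convexHull ℝ _ (show z ∈ (V : Set (E d)) \ {x} from ⟨Finset.mem_coe.2 hz, hxz.symm⟩))
    hs ht hst
  rw [← he] at h1
  exact h1

theorem not_three {V A : Finset (E d)} (h : DP V A) {x y z : E d} (hx : x ∈ V) (hy : y ∈ V)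
    (hz : z ∈ V) (hxy : x ≠ y) (hxz : x ≠ z) (hyz : y ≠ z) {α β γ : ℝ} (hs : α + β + γ = 0)
    (he : α • x + β • y + γ • z = 0) : α = 0 ∧ β = 0 ∧ γ = 0 := by
  have key : ∀ {x y z : E d}, x ∈ V → y ∈ V → z ∈ V → x ≠ y → x ≠ z → ∀ {α β γ : ℝ},
      α + β + γ = 0 → α • x + β • y + γ • z = 0 → β ≤ 0 → γ ≤ 0 → α = 0 := by
    intro x y z hx hy hz hxy hxz α β γ hs he hb hc
    by_contra hne
    have hpos : 0 < α := lt_of_le_of_ne (by linarith) (Ne.symm hne)
    refine not_seg h hx hy hz hxy hxz (s := -β / α) (t := -γ / α)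
      (div_nonneg (by linarith) hpos.le) (div_nonneg (by linarith) hpos.le)
      (by field_simp; linarith) ?_
    have e1 : α • x = (-β) • y + (-γ) • z := by
      have e2 : α • x + (β • y + γ • z) = 0 := by rw [← add_assoc]; exact he
      rw [eq_neg_of_add_eq_zero_left e2, neg_add, neg_smul, neg_smul]
    have e3 : x = α⁻¹ • (α • x) := by rw [smul_smul, inv_mul_cancel₀ hne, one_smul]
    rw [e3, e1, smul_add, smul_smul, smul_smul, inv_mul_eq_div, inv_mul_eq_div]
  have key2 : ∀ {x y z : E d}, x ∈ V → y ∈ V → z ∈ V → x ≠ y → x ≠ z → y ≠ z →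
      ∀ {α β γ : ℝ}, α + β + γ = 0 → α • x + β • y + γ • z = 0 → α = 0 := by
    intro x y z hx hy hz hxy hxz hyz α β γ hs he
    have hneg : (-α) • x + (-β) • y + (-γ) • z = 0 := by
      rw [neg_smul, neg_smul, neg_smul, ← neg_add, ← neg_add, he, neg_zero]
    have hy' : β • y + α • x + γ • z = 0 := by rw [add_comm (β • y)]; exact he
    have hz' : γ • z + α • x + β • y = 0 := by rw [add_assoc, add_comm]; exact he
    have hny' : (-β) • y + (-α) • x + (-γ) • z = 0 := by rw [add_comm ((-β) • y)]; exact hneg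
    have hnz' : (-γ) • z + (-α) • x + (-β) • y = 0 := by rw [add_assoc, add_comm]; exact hneg
    rcases le_total β 0 with hb | hb
    · rcases le_total γ 0 with hc | hc
      · exact key hx hy hz hxy hxz hs he hb hc
      · rcases le_total α 0 with ha | ha
        · have h1 := key hz hx hy hxz.symm hyz.symm (by linarith) hz' ha hb
          linarith
        · have h1 := key hy hx hz hxy.symm hyz (by linarith) hny' (by linarith) (by linarith)
          linarith
    · rcases le_total γ 0 with hc | hc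
      · rcases le_total α 0 with ha | ha
        · have h1 := key hy hx hz hxy.symm hyz (by linarith) hy' ha hc
          linarith
        · have h1 := key hz hx hy hxz.symm hyz.symm (by linarith) hnz' (by linarith) (by linarith)
          linarith
      · have h1 := key hx hy hz hxy hxz (by linarith) hneg (by linarith) (by linarith)
        linarith
  refine ⟨key2 hx hy hz hxy hxz hyz hs he, ?_, ?_⟩
  · exact key2 (α := β) (β := α) (γ := γ) hy hx hz hxy.symm hyz hxz (by linarith)
      (by rw [add_comm (β • y)]; exact he)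
  · exact key2 (α := γ) (β := α) (γ := β) hz hx hy hxz.symm hyz.symm hxy (by linarith)
      (by rw [add_assoc, add_comm]; exact he)

/-- an edge has at most two vertices -/
theorem card_edge {V A : Finset (E d)} (h : DP V A) {X : Finset (E d)} (hX : IsFace V A 1 X) :
    X.card ≤ 2 := by
  classical
  by_contra hcon
  push Not at hcon
  obtain ⟨x, y, z, hx, hy, hz, hxy, hxz, hyz⟩ := Finset.two_lt_card_iff.1 hcon
  obtain ⟨h1, h2, ⟨b, hb⟩, h4, h5⟩ := hX
  have h6 : ¬ LinearIndependent ℝ ![x, y, z] := by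
    intro hli
    have h7 : Submodule.span ℝ (Set.range ![x, y, z]) ≤ Submodule.span ℝ (X : Set (E d)) := by
      rw [Submodule.span_le]
      rintro _ ⟨i, rfl⟩
      apply Submodule.subset_span
      fin_cases i
      · exact hx
      · exact hy
      · exact hz
    have h8 := Submodule.finrank_mono h7
    rw [finrank_span_eq_card hli, h5] at h8
    simp at h8
  rw [Fintype.not_linearIndependent_iff] at h6
  obtain ⟨g, hg, i, hi⟩ := h6
  simp only [Fin.sum_univ_three, Matrix.cons_val_zero, Matrix.cons_val_one, Matrix.cons_val_two,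
    Matrix.head_cons, Matrix.tail_cons] at hg
  have hb' := (mem_act.1 hb).2
  have hsum : g 0 + g 1 + g 2 = 0 := by
    have h9 := congrArg (fun t => (inner ℝ b t : ℝ)) hg
    simp only [inner_add_right, inner_smul_right, hb' x hx, hb' y hy, hb' z hz,
      inner_zero_right, mul_one] at h9
    exact h9
  obtain ⟨e0, e1, e2⟩ := not_three h (h1 hx) (h1 hy) (h1 hz) hxy hxz hyz hsum hg
  fin_cases i
  · exact hi e0
  · exact hi e1
  · exact hi e2

open scoped Classical in
/-- every vertex lies on at least `d` edges -/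
theorem card_edgesAt (hd : 2 ≤ d) {V A : Finset (E d)} (h : DP V A) {v : E d} (hv : v ∈ V) :
    d ≤ ((Fc V A 1).filter (fun X => v ∈ X)).card := by
  by_contra hcon
  push Not at hcon
  set N := (Fc V A 1).filter (fun X => v ∈ X) with hN
  set T := N.biUnion (fun X => (X.erase v).image (fun u => u - v)) with hT
  have h1 : T.card < d := by
    refine lt_of_le_of_lt ?_ hcon
    calc T.card ≤ ∑ X ∈ N, ((X.erase v).image (fun u => u - v)).card := Finset.card_biUnion_le
      _ ≤ ∑ X ∈ N, 1 := by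
          refine Finset.sum_le_sum fun X hX => ?_
          rw [hN, Finset.mem_filter, mem_Fc] at hX
          refine Finset.card_image_le.trans ?_
          rw [Finset.card_erase_of_mem hX.2]
          have := card_edge h hX.1
          omega
      _ = N.card := by simp
  have h2 : finrank ℝ (Submodule.span ℝ (T : Set (E d))) < d :=
    lt_of_le_of_lt (finrank_span_finset_le_card T) h1
  have h3 : (Submodule.span ℝ (T : Set (E d)))ᗮ ≠ ⊥ := by
    intro h4
    have h5 := Submodule.finrank_add_finrank_orthogonal (Submodule.span ℝ (T : Set (E d)))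
    rw [h4, finrank_bot, finrank_euclideanSpace_fin] at h5
    omega
  obtain ⟨c, hc, hc0⟩ := Submodule.exists_mem_ne_zero_of_ne_bot h3
  rw [Submodule.mem_orthogonal] at hc
  have hcT : ∀ X ∈ N, ∀ u ∈ X, (inner ℝ c u : ℝ) = inner ℝ c v := by
    intro X hX u hu
    by_cases huv : u = v
    · rw [huv]
    · have h6 : u - v ∈ T := by
        rw [hT, Finset.mem_biUnion]
        exact ⟨X, hX, Finset.mem_image.2 ⟨u, Finset.mem_erase.2 ⟨huv, hu⟩, rfl⟩⟩
      have h7 := hc (u - v) (Submodule.subset_span (Finset.mem_coe.2 h6))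
      rw [real_inner_comm, inner_sub_right] at h7
      linarith
  have hA : A.Nonempty := by
    have h0 := h.hullA 0 (fun v _ => by rw [inner_zero_right]; exact zero_le_one)
    by_contra hne
    rw [Finset.not_nonempty_iff_eq_empty] at hne
    rw [hne] at h0
    simp at h0
  obtain ⟨a, ha⟩ := hA
  have hex : ∃ w ∈ V, (inner ℝ c w : ℝ) ≠ inner ℝ c v := by
    by_contra hcon2
    push Not at hcon2
    have h8 := hcon2 (-v) (h.negV v hv)
    rw [inner_neg_right] at h8
    have h9 : (inner ℝ c v : ℝ) = 0 := by linarith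
    have h10 := inner_span (T := ((act V {a} : Finset (E d)) : Set (E d))) (z := c)
      (fun w hw => by
        rw [real_inner_comm, hcon2 w (act_subset _ _ (Finset.mem_coe.1 hw)), h9])
      (x := c) (by rw [span_act h ha]; trivial)
    exact hc0 (inner_self_eq_zero.1 h10)
  obtain ⟨w, hw, hne⟩ := hex
  rcases lt_or_gt_of_ne hne with hlt | hgt
  · obtain ⟨X, hX, hvX, u, hu, hlt'⟩ := improving hd h (c := -c) hv ⟨w, hw, by
      rw [inner_neg_left, inner_neg_left]; linarith⟩
    have h11 := hcT X (by rw [hN, Finset.mem_filter, mem_Fc]; exact ⟨hX, hvX⟩) u hu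
    rw [inner_neg_left, inner_neg_left] at hlt'
    linarith
  · obtain ⟨X, hX, hvX, u, hu, hlt'⟩ := improving hd h (c := c) hv ⟨w, hw, hgt⟩
    have h11 := hcT X (by rw [hN, Finset.mem_filter, mem_Fc]; exact ⟨hX, hvX⟩) u hu
    linarith

theorem edges_ge (hd : 2 ≤ d) {V A : Finset (E d)} (h : DP V A) :
    d * V.card ≤ 2 * (Fc V A 1).card := by
  classical
  have h1 : V.card * d ≤ ∑ v ∈ V, ((Fc V A 1).filter (fun X => v ∈ X)).card := by
    rw [← smul_eq_mul, ← Finset.sum_const]
    exact Finset.sum_le_sum fun v hv => card_edgesAt hd h hv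
  have h2 : ∑ v ∈ V, ((Fc V A 1).filter (fun X => v ∈ X)).card =
      ∑ X ∈ Fc V A 1, (V.filter (fun v => v ∈ X)).card := by
    simp only [Finset.card_filter]
    exact Finset.sum_comm
  have h3 : ∑ X ∈ Fc V A 1, (V.filter (fun v => v ∈ X)).card ≤ ∑ X ∈ Fc V A 1, 2 := by
    refine Finset.sum_le_sum fun X hX => ?_
    rw [mem_Fc] at hX
    refine le_trans (Finset.card_le_card ?_) (card_edge h hX)
    intro v hv
    exact (Finset.mem_filter.1 hv).2
  rw [Finset.sum_const, smul_eq_mul] at h3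
  rw [h2] at h1
  rw [mul_comm d, mul_comm 2]
  exact h1.trans h3

end Pool.Agent.KD4
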