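import Pool.Agent.KD4.Defs

/-!
# KD4 / Rank: extreme points and the rank formula
-/

set_option autoImplicit false

namespace Pool.Agent.KD4

open Module Filter Topology

variable {d : ℕ}

/-- a point of the hull at which a functional is maximal lies in the hull of the maximisers -/
theorem face_hull {S B : Set (E d)} {φ : E d →ₗ[ℝ] ℝ} {c : ℝ}
    (h1 : ∀ x ∈ B, φ x = c) (h2 : ∀ x ∈ S, x ∉ B → φ x < c) {x : E d}
    (hx : x ∈ convexHull ℝ S) (hφ : φ x = c) : x ∈ convexHull ℝ B := by
  classical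
  obtain ⟨ι, _, w, z, hw, hw1, hz, rfl⟩ := mem_convexHull_iff_exists_fintype.1 hx
  have hle : ∀ i, φ (z i) ≤ c := fun i => by
    by_cases h : z i ∈ B
    · exact (h1 _ h).le
    · exact (h2 _ (hz i) h).le
  have hsum : ∑ i, w i * (c - φ (z i)) = 0 := by
    rw [map_sum] at hφ
    simp only [map_smul, smul_eq_mul] at hφ
    simp only [mul_sub, Finset.sum_sub_distrib, hφ, ← Finset.sum_mul, hw1, one_mul, sub_self]
  have hall := (Finset.sum_eq_zero_iff_of_nonneg (fun i _ =>
    mul_nonneg (hw i) (sub_nonneg.2 (hle i)))).1 hsum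
  have hzA : ∀ i, w i ≠ 0 → z i ∈ B := by
    intro i hi
    by_contra hn
    have h3 := hall i (Finset.mem_univ i)
    rcases mul_eq_zero.1 h3 with h | h
    · exact hi h
    · have := h2 _ (hz i) hn
      linarith
  have hex : ∃ i, w i ≠ 0 := by
    by_contra hcon
    push Not at hcon
    rw [Finset.sum_congr rfl (fun i _ => hcon i)] at hw1
    simp at hw1
  obtain ⟨i₀, hi₀⟩ := hex
  refine mem_convexHull_of_exists_fintype w (fun i => if w i = 0 then z i₀ else z i) hw hw1 ?_ ?_
  · intro i
    by_cases hi : w i = 0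
    · simp only [hi, if_true]
      exact hzA i₀ hi₀
    · simp only [hi, if_false]
      exact hzA i hi
  · refine Finset.sum_congr rfl fun i _ => ?_
    by_cases hi : w i = 0
    · simp only [hi, if_true, zero_smul]
    · simp only [hi, if_false]

/-- linear functionals are bounded on hulls -/
theorem le_hull {S : Set (E d)} {φ : E d →ₗ[ℝ] ℝ} {c : ℝ} (h : ∀ x ∈ S, φ x ≤ c) {x : E d}
    (hx : x ∈ convexHull ℝ S) : φ x ≤ c := by
  have h1 : convexHull ℝ S ⊆ {x | φ x ≤ c} :=
    convexHull_min h (convex_halfSpace_le φ.isLinear c)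
  exact h1 hx

theorem inner_le_hull {S : Set (E d)} {a : E d} {c : ℝ} (h : ∀ x ∈ S, inner ℝ a x ≤ c)
    {x : E d} (hx : x ∈ convexHull ℝ S) : inner ℝ a x ≤ c :=
  le_hull (φ := (innerSL ℝ a).toLinearMap) h hx

theorem inner_eq_hull {S : Set (E d)} {a : E d} {c : ℝ} (h : ∀ x ∈ S, inner ℝ a x = c)
    {x : E d} (hx : x ∈ convexHull ℝ S) : inner ℝ a x = c := by
  refine le_antisymm (inner_le_hull (fun y hy => (h y hy).le) hx) ?_
  have h1 := inner_le_hull (a := -a) (c := -c) (S := S)
    (fun y hy => by rw [inner_neg_left, h y hy]) hx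
  rw [inner_neg_left] at h1
  linarith

/-- points of the hull on which all members of `Y` are 1 -/
theorem mem_conv_act {V A Y : Finset (E d)} (h : DP V A) (hY : Y ⊆ A) {x : E d}
    (hx : x ∈ convexHull ℝ (V : Set (E d))) (hxY : ∀ a ∈ Y, inner ℝ a x = (1 : ℝ)) :
    x ∈ convexHull ℝ ((act V Y : Finset (E d)) : Set (E d)) := by
  have key : ∀ v : E d, (innerSL ℝ (∑ a ∈ Y, a)).toLinearMap v = ∑ a ∈ Y, inner ℝ a v := by
    intro v
    simp only [ContinuousLinearMap.coe_coe, innerSL_apply_apply, sum_inner]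
  refine face_hull (φ := (innerSL ℝ (∑ a ∈ Y, a)).toLinearMap) (c := (Y.card : ℝ)) ?_ ?_ hx ?_
  · intro v hv
    rw [key, Finset.sum_congr rfl (fun a ha => ?_), Finset.sum_const, nsmul_eq_mul, mul_one]
    have h1 := (mem_act.1 (Finset.mem_coe.1 hv)).2 a ha
    rw [real_inner_comm]
    exact h1
  · intro v hv hv'
    rw [key]
    have h2 : ∃ a ∈ Y, inner ℝ a v ≠ (1 : ℝ) := by
      by_contra hcon
      push Not at hcon
      exact hv' (Finset.mem_coe.2 (mem_act.2 ⟨Finset.mem_coe.1 hv, fun a ha => by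
        rw [real_inner_comm]; exact hcon a ha⟩))
    obtain ⟨a, ha, hne⟩ := h2
    have h3 : ∑ a ∈ Y, inner ℝ a v < ∑ _a ∈ Y, (1 : ℝ) := by
      refine Finset.sum_lt_sum (fun b hb => h.le v (Finset.mem_coe.1 hv) b (hY hb))
        ⟨a, ha, lt_of_le_of_ne (h.le v (Finset.mem_coe.1 hv) a (hY ha)) hne⟩
    simpa using h3
  · rw [key, Finset.sum_congr rfl hxY, Finset.sum_const, nsmul_eq_mul, mul_one]

/-- a functional which is at most 1 on `V` and whose tight vertices span is a member of `A` -/
theorem mem_of_span {V A : Finset (E d)} (h : DP V A) (y : E d)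
    (hy : ∀ v ∈ V, inner ℝ v y ≤ (1 : ℝ))
    (hs : Submodule.span ℝ {v : E d | v ∈ V ∧ inner ℝ v y = (1 : ℝ)} = ⊤) : y ∈ A := by
  classical
  set T := V.filter (fun v => inner ℝ v y = (1 : ℝ)) with hT
  have h1 := mem_conv_act h.swap (Y := T) (Finset.filter_subset _ _) (h.hullA y hy)
    (fun v hv => (Finset.mem_filter.1 hv).2)
  have h2 : (act A T).Nonempty := by
    by_contra hcon
    rw [Finset.not_nonempty_iff_eq_empty] at hcon
    rw [hcon] at h1
    simp at h1
  obtain ⟨a, ha⟩ := h2
  rw [mem_act] at ha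
  have h3 : a - y = 0 := by
    have h4 : ∀ z ∈ Submodule.span ℝ {v : E d | v ∈ V ∧ inner ℝ v y = (1 : ℝ)},
        inner ℝ (a - y) z = (0 : ℝ) := by
      intro z hz
      induction hz using Submodule.span_induction with
      | mem v hv =>
        have h5 := ha.2 v (Finset.mem_filter.2 hv)
        rw [inner_sub_left, h5, real_inner_comm, hv.2, sub_self]
      | zero => simp
      | add x y _ _ hx hy => rw [inner_add_right, hx, hy, add_zero]
      | smul c x _ hx => rw [inner_smul_right, hx, mul_zero]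
    have h6 := h4 (a - y) (by rw [hs]; trivial)
    exact inner_self_eq_zero.1 h6
  rw [sub_eq_zero] at h3
  exact h3 ▸ ha.1

/-- small steps -/
theorem exists_step (A : Finset (E d)) (x z : E d) (hx : ∀ a ∈ A, inner ℝ a x ≤ (1 : ℝ))
    (hz : ∀ a ∈ A, inner ℝ a x = (1 : ℝ) → inner ℝ a z ≤ (0 : ℝ)) :
    ∃ ε : ℝ, 0 < ε ∧ ∀ a ∈ A, inner ℝ a (x + ε • z) ≤ (1 : ℝ) ∧
      (inner ℝ a (x + ε • z) = (1 : ℝ) ↔ inner ℝ a x = (1 : ℝ) ∧ inner ℝ a z = (0 : ℝ)) := by
  have h1 : ∀ a ∈ A, ∀ᶠ ε in 𝓝[>] (0 : ℝ), inner ℝ a (x + ε • z) ≤ (1 : ℝ) ∧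
      (inner ℝ a (x + ε • z) = (1 : ℝ) ↔ inner ℝ a x = (1 : ℝ) ∧ inner ℝ a z = (0 : ℝ)) := by
    intro a ha
    rcases lt_or_eq_of_le (hx a ha) with h2 | h2
    · have hc : Tendsto (fun ε : ℝ => inner ℝ a (x + ε • z)) (𝓝[>] (0 : ℝ))
          (𝓝 (inner ℝ a (x + (0 : ℝ) • z))) := by
        apply Tendsto.mono_left _ nhdsWithin_le_nhds
        exact (Continuous.inner continuous_const (continuous_const.add
          (continuous_id.smul continuous_const))).tendsto 0
      rw [zero_smul, add_zero] at hc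
      filter_upwards [hc.eventually (gt_mem_nhds h2)] with ε hε
      refine ⟨hε.le, fun h3 => absurd h3 hε.ne, fun h3 => absurd h3.1 h2.ne⟩
    · filter_upwards [self_mem_nhdsWithin] with ε hε
      have hε' : (0 : ℝ) < ε := hε
      have h3 := hz a ha h2
      rw [inner_add_right, inner_smul_right, h2]
      refine ⟨by nlinarith, fun h4 => ⟨rfl, ?_⟩, fun h4 => by rw [h4.2]; ring⟩
      have h5 : ε * inner ℝ a z = 0 := by linarith
      rcases mul_eq_zero.1 h5 with h6 | h6
      · exact absurd h6 hε'.ne'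
      · exact h6
  have h2 : ∀ᶠ ε in 𝓝[>] (0 : ℝ), ∀ a ∈ A, inner ℝ a (x + ε • z) ≤ (1 : ℝ) ∧
      (inner ℝ a (x + ε • z) = (1 : ℝ) ↔ inner ℝ a x = (1 : ℝ) ∧ inner ℝ a z = (0 : ℝ)) :=
    (Finset.eventually_all A).2 h1
  obtain ⟨ε, h3, h4⟩ := (h2.and self_mem_nhdsWithin).exists
  exact ⟨ε, h4, h3⟩

/-- every member of `A` is exposed -/
theorem exists_sep {V A : Finset (E d)} (h : DP V A) {a : E d} (ha : a ∈ A) :
    ∃ c : E d →ₗ[ℝ] ℝ, ∀ b ∈ A, b ≠ a → c b < c a := by
  classical
  have h1 : IsClosed (convexHull ℝ ((A : Set (E d)) \ {a})) := by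
    apply IsCompact.isClosed
    exact (A.finite_toSet.subset Set.diff_subset).isCompact_convexHull ℝ
  obtain ⟨f, u, hf, hu⟩ := geometric_hahn_banach_closed_point (convex_convexHull ℝ _) h1
    (h.extA a ha)
  refine ⟨f.toLinearMap, fun b hb hba => ?_⟩
  have h2 := hf b (subset_convexHull ℝ _ ⟨Finset.mem_coe.2 hb, hba⟩)
  exact lt_trans h2 hu

/-- the tight vertices of a facet span -/
theorem span_act {V A : Finset (E d)} (h : DP V A) {a : E d} (ha : a ∈ A) :
    Submodule.span ℝ ((act V {a} : Finset (E d)) : Set (E d)) = ⊤ := by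
  classical
  by_contra hne
  set K := Submodule.span ℝ ((act V {a} : Finset (E d)) : Set (E d)) with hK
  have h1 : Kᗮ ≠ ⊥ := fun h2 => hne (Submodule.orthogonal_eq_bot_iff.1 h2)
  obtain ⟨z, hz, hz0⟩ := Submodule.exists_mem_ne_zero_of_ne_bot h1
  have hz1 : ∀ v ∈ V, inner ℝ v a = (1 : ℝ) → inner ℝ v z = (0 : ℝ) := by
    intro v hv hva
    exact (Submodule.mem_orthogonal K z).1 hz v (Submodule.subset_span
      (Finset.mem_coe.2 (mem_act.2 ⟨hv, fun w hw => by
        rw [Finset.mem_singleton.1 hw]; exact hva⟩)))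
  have hva : ∀ v ∈ V, inner ℝ v a ≤ (1 : ℝ) := fun v hv => by
    rw [real_inner_comm]; exact h.le v hv a ha
  obtain ⟨ε, hε, h2⟩ := exists_step V a z hva (fun v hv hv' => (hz1 v hv hv').le)
  obtain ⟨δ, hδ, h3⟩ := exists_step V a (-z) hva
    (fun v hv hv' => by rw [inner_neg_right, hz1 v hv hv', neg_zero])
  have h4 := h.hullA _ (fun v hv => (h2 v hv).1)
  have h5 := h.hullA _ (fun v hv => (h3 v hv).1)
  obtain ⟨c, hc⟩ := exists_sep h ha
  have hle : ∀ b ∈ (A : Set (E d)), c b ≤ c a := fun b hb => by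
    by_cases hba : b = a
    · rw [hba]
    · exact (hc b (Finset.mem_coe.1 hb) hba).le
  have h6 := le_hull hle h4
  have h7 := le_hull hle h5
  rw [map_add, map_smul, smul_eq_mul] at h6 h7
  rw [map_neg] at h7
  have h8 : c z = 0 := by
    have e1 : ε * c z ≤ 0 := by linarith
    have e2 : 0 ≤ δ * c z := by nlinarith
    have e3 : c z ≤ 0 := by
      by_contra hcon
      push Not at hcon
      have := mul_pos hε hcon
      linarith
    have e4 : 0 ≤ c z := by
      by_contra hcon
      push Not at hcon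
      have := mul_neg_of_pos_of_neg hδ hcon
      linarith
    linarith
  have h9 : a + ε • z ∈ convexHull ℝ ({a} : Set (E d)) := by
    refine face_hull (φ := c) (c := c a) (S := (A : Set (E d))) ?_ ?_ h4 ?_
    · intro x hx
      rw [Set.mem_singleton_iff.1 hx]
    · intro x hx hx'
      exact hc x (Finset.mem_coe.1 hx) hx'
    · rw [map_add, map_smul, h8, smul_zero, add_zero]
  rw [convexHull_singleton, Set.mem_singleton_iff] at h9
  have h10 : ε • z = 0 := by
    have := sub_eq_zero.2 h9
    rwa [add_sub_cancel_left] at this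
  rcases smul_eq_zero.1 h10 with h11 | h11
  · exact hε.ne' h11
  · exact hz0 h11

/-- the barycentre of `X` -/
noncomputable def bary (X : Finset (E d)) : E d := (X.card : ℝ)⁻¹ • ∑ x ∈ X, x

theorem bary_mem {X : Finset (E d)} (hne : X.Nonempty) :
    bary X ∈ convexHull ℝ (X : Set (E d)) := by
  classical
  have hc : (X.card : ℝ) ≠ 0 := by
    have := hne.card_pos
    positivity
  have h1 := Finset.centerMass_mem_convexHull (R := ℝ) X (w := fun _ => (1 : ℝ)) (z := id)
    (s := (X : Set (E d))) (fun _ _ => zero_le_one) (by simpa using hne.card_pos)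
    (fun i hi => hi)
  rw [Finset.centerMass] at h1
  simpa [bary] using h1

theorem inner_bary {X : Finset (E d)} (hne : X.Nonempty) (a : E d) :
    inner ℝ a (bary X) = (X.card : ℝ)⁻¹ * ∑ x ∈ X, inner ℝ a x := by
  rw [bary, inner_smul_right, inner_sum]

/-- the members of `A` which are 1 at the barycentre -/
theorem bary_tight {V A X : Finset (E d)} (h : DP V A) (hX : X ⊆ V) (hne : X.Nonempty) {a : E d}
    (ha : a ∈ A) : inner ℝ a (bary X) = (1 : ℝ) ↔ a ∈ act A X := by
  have hc : (0 : ℝ) < X.card := by exact_mod_cast hne.card_pos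
  constructor
  · intro h1
    rw [mem_act]
    refine ⟨ha, ?_⟩
    rw [inner_bary hne, inv_mul_eq_div, div_eq_one_iff_eq hc.ne'] at h1
    have h2 : ∑ x ∈ X, (1 - inner ℝ a x) = 0 := by
      rw [Finset.sum_sub_distrib, h1]
      simp
    have h3 := (Finset.sum_eq_zero_iff_of_nonneg (fun x hx =>
      sub_nonneg.2 (h.le x (hX hx) a ha))).1 h2
    intro v hv
    have := h3 v hv
    linarith
  · intro h1
    exact inner_eq_hull (fun x hx => (mem_act.1 h1).2 x (Finset.mem_coe.1 hx)) (bary_mem hne)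

/-- the affine hull of a face -/
theorem span_face {V A : Finset (E d)} (h : DP V A) {X : Finset (E d)} (hX : X ⊆ V)
    (hne : X.Nonempty) (hcl : act V (act A X) = X) :
    Submodule.span ℝ (X : Set (E d)) =
      (Submodule.span ℝ ((act A X : Finset (E d)) : Set (E d)))ᗮ ⊔
        Submodule.span ℝ {bary X} := by
  classical
  have hb := bary_mem hne
  have hsub : convexHull ℝ (X : Set (E d)) ⊆ (Submodule.span ℝ (X : Set (E d)) : Set (E d)) :=
    convexHull_min Submodule.subset_span (Submodule.convex _)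
  have hW : ∀ z : E d, (∀ a ∈ act A X, inner ℝ a z = (0 : ℝ)) →
      z ∈ (Submodule.span ℝ ((act A X : Finset (E d)) : Set (E d)))ᗮ := by
    intro z hz
    rw [Submodule.mem_orthogonal]
    intro u hu
    induction hu using Submodule.span_induction with
    | mem v hv => exact hz v (Finset.mem_coe.1 hv)
    | zero => simp
    | add x y _ _ hx hy => rw [inner_add_left, hx, hy, add_zero]
    | smul c x _ hx => rw [real_inner_smul_left, hx, mul_zero]
  refine le_antisymm ?_ ?_
  · rw [Submodule.span_le]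
    intro x hx
    have hx' := Finset.mem_coe.1 hx
    have e : x = (x - bary X) + bary X := by abel
    rw [SetLike.mem_coe, e]
    refine Submodule.add_mem_sup (hW _ fun a ha => ?_) (Submodule.mem_span_singleton_self _)
    rw [inner_sub_right, (mem_act.1 ha).2 x hx', (bary_tight h hX hne (act_subset _ _ ha)).2 ha,
      sub_self]
  · rw [sup_le_iff]
    constructor
    · intro z hz
      have hz1 : ∀ a ∈ act A X, inner ℝ a z = (0 : ℝ) := fun a ha =>
        (Submodule.mem_orthogonal _ z).1 hz a (Submodule.subset_span (Finset.mem_coe.2 ha))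
      have hXV : convexHull ℝ (X : Set (E d)) ⊆ convexHull ℝ (V : Set (E d)) :=
        convexHull_mono (by exact_mod_cast hX)
      obtain ⟨ε, hε, h2⟩ := exists_step A (bary X) z
        (fun a ha => inner_le_hull (fun x hx => h.le x (Finset.mem_coe.1 hx) a ha) (hXV hb))
        (fun a ha h3 => (hz1 a ((bary_tight h hX hne ha).1 h3)).le)
      have h3 := h.hullV _ (fun a ha => (h2 a ha).1)
      have h4 := mem_conv_act h (act_subset A X) h3 (fun a ha => by
        rw [inner_add_right, inner_smul_right, hz1 a ha,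
          (bary_tight h hX hne (act_subset _ _ ha)).2 ha]
        ring)
      rw [hcl] at h4
      have h5 := Submodule.sub_mem _ (hsub h4) (hsub hb)
      rw [add_sub_cancel_left] at h5
      exact (Submodule.smul_mem_iff _ hε.ne').1 h5
    · rw [Submodule.span_singleton_le_iff_mem]
      exact hsub hb

/-- rank formula for closed sets -/
theorem rank_formula {V A : Finset (E d)} (h : DP V A) {X : Finset (E d)} (hX : X ⊆ V)
    (hne : X.Nonempty) (hne' : (act A X).Nonempty) (hcl : act V (act A X) = X) :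
    finrank ℝ (Submodule.span ℝ (X : Set (E d))) +
      finrank ℝ (Submodule.span ℝ ((act A X : Finset (E d)) : Set (E d))) = d + 1 := by
  obtain ⟨a, ha⟩ := hne'
  have h1 := (bary_tight h hX hne (act_subset _ _ ha)).2 ha
  have h0 : bary X ≠ 0 := by
    intro h0
    rw [h0, inner_zero_right] at h1
    exact zero_ne_one h1
  have h2 : (Submodule.span ℝ ((act A X : Finset (E d)) : Set (E d)))ᗮ ⊓
      Submodule.span ℝ {bary X} = ⊥ := by
    rw [Submodule.eq_bot_iff]
    intro z hz
    rw [Submodule.mem_inf, Submodule.mem_span_singleton] at hz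
    obtain ⟨hz1, c, hc⟩ := hz
    have h3 := (Submodule.mem_orthogonal _ z).1 hz1 a
      (Submodule.subset_span (Finset.mem_coe.2 ha))
    rw [← hc, inner_smul_right, h1, mul_one] at h3
    rw [← hc, h3, zero_smul]
  have h3 := Submodule.finrank_sup_add_finrank_inf_eq
    (Submodule.span ℝ ((act A X : Finset (E d)) : Set (E d)))ᗮ (Submodule.span ℝ {bary X})
  rw [h2, finrank_bot, add_zero, ← span_face h hX hne hcl, finrank_span_singleton h0] at h3
  have h4 := Submodule.finrank_add_finrank_orthogonal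
    (Submodule.span ℝ ((act A X : Finset (E d)) : Set (E d)))
  rw [finrank_euclideanSpace_fin] at h4
  omega

theorem IsFace.dual {V A : Finset (E d)} (h : DP V A) {k : ℕ} {X : Finset (E d)}
    (hX : IsFace V A k X) : k + 1 ≤ d ∧ IsFace A V (d - 1 - k) (act A X) := by
  obtain ⟨h1, h2, h3, h4, h5⟩ := hX
  have h6 := rank_formula h h1 h2 h3 h4
  have h7 : 0 < finrank ℝ (Submodule.span ℝ ((act A X : Finset (E d)) : Set (E d))) := by
    rw [Module.finrank_pos_iff_exists_ne_zero]
    obtain ⟨a, ha⟩ := h3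
    refine ⟨⟨a, Submodule.subset_span (Finset.mem_coe.2 ha)⟩, fun h0 => ?_⟩
    obtain ⟨x, hx⟩ := h2
    have h8 := (mem_act.1 ha).2 x hx
    have h9 : a = 0 := congrArg Subtype.val h0
    rw [h9, inner_zero_left] at h8
    exact zero_ne_one h8
  refine ⟨by omega, act_subset _ _, h3, ?_, ?_, ?_⟩
  · rw [h4]; exact h2
  · rw [h4]
  · omega

/-- the rank is strictly monotone on closed sets -/
theorem rank_lt {V A : Finset (E d)} {X X' : Finset (E d)}
    (hX' : X' ⊆ V) (hne' : (act A X').Nonempty) (hcl : act V (act A X) = X)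
    (hsub : X ⊂ X') :
    finrank ℝ (Submodule.span ℝ (X : Set (E d))) <
      finrank ℝ (Submodule.span ℝ (X' : Set (E d))) := by
  have hle : Submodule.span ℝ (X : Set (E d)) ≤ Submodule.span ℝ (X' : Set (E d)) :=
    Submodule.span_mono (by exact_mod_cast hsub.1)
  refine Submodule.finrank_lt_finrank_of_lt (lt_of_le_of_ne hle fun heq => hsub.2 ?_)
  intro x' hx'
  rw [← hcl, mem_act]
  refine ⟨hX' hx', fun a ha => ?_⟩
  obtain ⟨b, hb⟩ := hne'
  have h1 : x' ∈ Submodule.span ℝ (X : Set (E d)) := by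
    rw [heq]; exact Submodule.subset_span (Finset.mem_coe.2 hx')
  have h2 : ∀ z ∈ Submodule.span ℝ (X : Set (E d)), inner ℝ (a - b) z = (0 : ℝ) := by
    intro z hz
    induction hz using Submodule.span_induction with
    | mem v hv =>
      have hv' := Finset.mem_coe.1 hv
      rw [inner_sub_left, (mem_act.1 ha).2 v hv', (mem_act.1 hb).2 v (hsub.1 hv'), sub_self]
    | zero => simp
    | add x y _ _ hx hy => rw [inner_add_right, hx, hy, add_zero]
    | smul c x _ hx => rw [inner_smul_right, hx, mul_zero]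
  have h3 := h2 x' h1
  rw [inner_sub_left, (mem_act.1 hb).2 x' hx'] at h3
  rw [real_inner_comm]
  linarith

end Pool.Agent.KD4
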