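import Pool.Agent.KD4.Rank

/-!
# KD4 / Tra: from closed vertex sets to exposed faces

(after the file of helper4 for dimension 4)
-/

set_option autoImplicit false

namespace Pool.Agent.KD4

open Module

variable {d : ℕ}

/-- the sum of the members of `Y` as a functional -/
private noncomputable def fn (Y : Finset (E d)) : E d →L[ℝ] ℝ := ∑ a ∈ Y, innerSL ℝ a

private theorem fn_apply (Y : Finset (E d)) (x : E d) : fn Y x = ∑ a ∈ Y, inner ℝ a x := by
  simp [fn, ContinuousLinearMap.sum_apply]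

private theorem one_le {V A : Finset (E d)} (h : DP V A) {a : E d} (ha : a ∈ A) {x : E d}
    (hx : x ∈ convexHull ℝ (V : Set (E d))) : inner ℝ a x ≤ (1 : ℝ) :=
  inner_le_hull (fun v hv => h.le v (Finset.mem_coe.1 hv) a ha) hx

private theorem mem_closed {V A X : Finset (E d)} (hcl : act V (act A X) = X) {v : E d}
    (hv : v ∈ V) (h1 : ∀ a ∈ act A X, inner ℝ a v = (1 : ℝ)) : v ∈ X := by
  rw [← hcl, mem_act]
  exact ⟨hv, fun a ha => by rw [real_inner_comm]; exact h1 a ha⟩

private theorem fn_le {V A X : Finset (E d)} (h : DP V A) {x : E d}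
    (hx : x ∈ convexHull ℝ (V : Set (E d))) : fn (act A X) x ≤ ((act A X).card : ℝ) := by
  rw [fn_apply]
  calc ∑ a ∈ act A X, inner ℝ a x ≤ ∑ a ∈ act A X, (1 : ℝ) :=
        Finset.sum_le_sum fun a ha => one_le h (act_subset _ _ ha) hx
    _ = _ := by simp

private theorem fn_eq {V A X : Finset (E d)} (h : DP V A) {x : E d}
    (hx : x ∈ convexHull ℝ (V : Set (E d))) (he : fn (act A X) x = ((act A X).card : ℝ)) :
    ∀ a ∈ act A X, inner ℝ a x = (1 : ℝ) := by
  rw [fn_apply] at he
  have h1 : ∑ a ∈ act A X, ((1 : ℝ) - inner ℝ a x) = 0 := by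
    rw [Finset.sum_sub_distrib, he]
    simp
  have h2 := (Finset.sum_eq_zero_iff_of_nonneg (fun a ha =>
    sub_nonneg.2 (one_le h (act_subset _ _ ha) hx))).1 h1
  intro a ha
  have := h2 a ha
  linarith

/-- the hull of a closed set -/
private theorem mem_hull_iff {V A X : Finset (E d)} (h : DP V A)
    (hcl : act V (act A X) = X) {x : E d} (hx : x ∈ convexHull ℝ (V : Set (E d))) :
    x ∈ convexHull ℝ (X : Set (E d)) ↔ fn (act A X) x = ((act A X).card : ℝ) := by
  have htight : ∀ a ∈ act A X, ∀ v ∈ (X : Set (E d)), inner ℝ a v = (1 : ℝ) := fun a ha v hv =>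
    (mem_act.1 ha).2 v (Finset.mem_coe.1 hv)
  constructor
  · intro h1
    rw [fn_apply, Finset.sum_congr rfl (fun a ha => inner_eq_hull (htight a ha) h1)]
    simp
  · intro h1
    have h2 := mem_conv_act h (act_subset A X) hx (fn_eq h hx h1)
    rwa [hcl] at h2

private theorem exposed {V A X : Finset (E d)} (h : DP V A) (hX : X ⊆ V) (hne : X.Nonempty)
    (hcl : act V (act A X) = X) :
    IsExposed ℝ (convexHull ℝ (V : Set (E d))) (convexHull ℝ (X : Set (E d))) := by
  intro _
  refine ⟨fn (act A X), ?_⟩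
  obtain ⟨v, hv⟩ := hne
  have hvV : v ∈ convexHull ℝ (V : Set (E d)) :=
    subset_convexHull ℝ _ (Finset.mem_coe.2 (hX hv))
  have hv1 : fn (act A X) v = ((act A X).card : ℝ) :=
    (mem_hull_iff h hcl hvV).1 (subset_convexHull ℝ _ (Finset.mem_coe.2 hv))
  ext x
  constructor
  · intro hx
    have hxV : x ∈ convexHull ℝ (V : Set (E d)) := convexHull_mono (by exact_mod_cast hX) hx
    refine ⟨hxV, fun y hy => ?_⟩
    rw [(mem_hull_iff h hcl hxV).1 hx]
    exact fn_le h hy
  · rintro ⟨hxV, hmax⟩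
    refine (mem_hull_iff h hcl hxV).2 (le_antisymm (fn_le h hxV) ?_)
    rw [← hv1]
    exact hmax v hvV

private theorem hull_inter {V A X : Finset (E d)} (h : DP V A)
    (hcl : act V (act A X) = X) {v : E d} (hv : v ∈ V) :
    v ∈ convexHull ℝ (X : Set (E d)) ↔ v ∈ X := by
  have hvV : v ∈ convexHull ℝ (V : Set (E d)) := subset_convexHull ℝ _ (Finset.mem_coe.2 hv)
  constructor
  · intro h1
    exact mem_closed hcl hv (fn_eq h hvV ((mem_hull_iff h hcl hvV).1 h1))
  · intro h1
    exact subset_convexHull ℝ _ (Finset.mem_coe.2 h1)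

private theorem closed_inj {V A X X' : Finset (E d)} (h : DP V A) (hX : X ⊆ V) (hX' : X' ⊆ V)
    (hcl : act V (act A X) = X) (hcl' : act V (act A X') = X')
    (he : convexHull ℝ (X : Set (E d)) = convexHull ℝ (X' : Set (E d))) : X = X' := by
  ext v
  constructor
  · intro hv
    exact (hull_inter h hcl' (hX hv)).1 (he ▸ (hull_inter h hcl (hX hv)).2 hv)
  · intro hv
    exact (hull_inter h hcl (hX' hv)).1 (he ▸ (hull_inter h hcl' (hX' hv)).2 hv)

/-- the number of nonempty exposed faces is more than the number of proper closed vertex sets -/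
theorem card_le_encard {V A : Finset (E d)} (h : DP V A) (C : Finset (Finset (E d)))
    (hC : ∀ X ∈ C, X ⊆ V ∧ X.Nonempty ∧ (act A X).Nonempty ∧ act V (act A X) = X) :
    ((C.card + 1 : ℕ) : ℕ∞) ≤
      {F : Set (E d) | IsExposed ℝ (convexHull ℝ (V : Set (E d))) F ∧ F.Nonempty}.encard := by
  classical
  have h0 : (0 : E d) ∈ convexHull ℝ (V : Set (E d)) := h.hullV 0 fun a _ => by
    rw [inner_zero_right]; exact zero_le_one
  set D : Set (Set (E d)) := (fun X : Finset (E d) => convexHull ℝ (X : Set (E d))) '' (C : Set (Finset (E d)))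
    with hD
  have hDc : D.encard = (C.card : ℕ∞) := by
    rw [hD, Set.InjOn.encard_image, Set.encard_coe_eq_coe_finsetCard]
    intro X hX X' hX' he
    have h1 := hC X (Finset.mem_coe.1 hX)
    have h2 := hC X' (Finset.mem_coe.1 hX')
    exact closed_inj h h1.1 h2.1 h1.2.2.2 h2.2.2.2 he
  have hnot : convexHull ℝ (V : Set (E d)) ∉ D := by
    rintro ⟨X, hX, he⟩
    obtain ⟨a, ha⟩ := (hC X (Finset.mem_coe.1 hX)).2.2.1
    have he' : convexHull ℝ (X : Set (E d)) = convexHull ℝ (V : Set (E d)) := he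
    rw [← he'] at h0
    have h1 := inner_eq_hull (a := a) (c := 1)
      (fun v hv => (mem_act.1 ha).2 v (Finset.mem_coe.1 hv)) h0
    rw [inner_zero_right] at h1
    exact zero_ne_one h1
  have hins : (insert (convexHull ℝ (V : Set (E d))) D).encard = ((C.card + 1 : ℕ) : ℕ∞) := by
    rw [Set.encard_insert_of_notMem hnot, hDc]
    push_cast
    rfl
  rw [← hins]
  refine Set.encard_le_encard ?_
  rintro F (rfl | ⟨X, hX, rfl⟩)
  · refine ⟨fun _ => ⟨0, ?_⟩, ⟨0, h0⟩⟩
    ext x
    simp
  · have h1 := hC X (Finset.mem_coe.1 hX)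
    refine ⟨exposed h h1.1 h1.2.1 h1.2.2.2, ?_⟩
    obtain ⟨v, hv⟩ := h1.2.1
    exact ⟨v, subset_convexHull ℝ _ (Finset.mem_coe.2 hv)⟩

end Pool.Agent.KD4
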